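import Pool.Agent.V11316.AT20

/-!
# The numbers of primes in the windows above translated squares are uncorrelated

Consider a table with rows `a_1, …, a_k` in a finite set `A` of size at least `d X` and columns `c_1, …, c_l` in a finite set `C` of
size at least `d X²`. Each cell `(i, j)` of the table has its own labels `f_ij : A → [1, X]` and `g_ij : C → [0, X²]`, ARBITRARY
injective maps, and its own length `H_ij`, an integer with `λ log X ≤ H_ij ≤ X²`, where `λ > 0` is arbitrarily small. The entry of
the cell is the translated square `x_ij = f_ij(a_i)² + g_ij(c_j)`, and `d_ij` is the number of primes in the window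
`(x_ij, x_ij + H_ij]` divided by the expected number `H_ij / log X²`. Then the average of the product of the `d_ij`, over any set of
cells of the table, over all rows in `A` and all columns in `C` is `1 + o(1)`, uniformly in `A`, `C`, the labels and the lengths.
We prove more: for almost all choices of `r` rows and `s` columns the same holds for the average over all ways to complete the
table by `k` further rows and `l` further columns, the product being over an arbitrary set of the new cells.

The third part is about the windows `(n² + s, n² + s + (log₂ n)²]` of the problem, translated by `s`: for arbitrary dense sets of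
integers `n` in `[1, X]` and `s` in `[0, X²]`, the average over all tables `(n_i, s_j)` of the product, over any set of cells, of
the numbers of primes in these windows, divided by the expected number `log X / (2 (log 2)²)`, is `1 + o(1)`.

Method: the cut norm of the matrix of the densities at the translated squares is small, by the circle method with fourth moments
(as in `TranslatedSquares`): the exponential sum over the primes, times the difference of the kernels of a short window and of a
long window, is small at all frequencies (Vinogradov's bound, the Siegel-Walfisz theorem), the fourth moment of the exponential sum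
over arbitrary squares is at most the number of the solutions of `a² + b² = c² + d²`. The moments of the rows are bounded by the
sieve.
-/

set_option autoImplicit false

namespace Pool.Agent.Results.MP_73869e_nt.CorrelationsAboveSquares

open Finset

/-- the number of primes in `(x, x + H]` -/
def count (x H : ℕ) : ℕ := ((Ioc x (x + H)).filter Nat.Prime).card

/-- the number of primes in `(x, x + H]`, divided by `H / log X²` -/
noncomputable def density (X H x : ℕ) : ℝ := (count x H : ℝ) * (2 * Real.log X) / H

/-- the data of a cell: the labels `f` of the rows and `g` of the columns, and the length `H` of the window -/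
structure Data where
  /-- the labels of the rows -/
  f : ℕ → ℕ
  /-- the labels of the columns -/
  g : ℕ → ℕ
  /-- the length of the window -/
  H : ℕ

/-- the factor of the cell in row `a` and column `c`: the density of the primes in `(x, x + H]`, `x = (f a)² + g c`, if the cell is
used with the data `f`, `g`, `H`, and `1` if the cell is not used -/
noncomputable def factor (X : ℕ) (o : Option Data) (a c : ℕ) : ℝ := match o with
  | none => 1
  | some q => density X q.H (q.f a ^ 2 + q.g c)

/-- the labels are injective on `A` and on `C`, those of the rows are between `1` and `X`, those of the columns are at most `X²`,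
and the length is between `λ log X` and `X²` -/
def Admissible (lam : ℝ) (X : ℕ) (A C : Finset ℕ) (q : Data) : Prop :=
  (Set.InjOn q.f A ∧ ∀ a ∈ A, 1 ≤ q.f a ∧ q.f a ≤ X) ∧ (Set.InjOn q.g C ∧ ∀ c ∈ C, q.g c ≤ X ^ 2) ∧
    lam * Real.log X ≤ q.H ∧ q.H ≤ X ^ 2

/-- the data of all used cells are admissible -/
def AllAdmissible {r s : ℕ} (lam : ℝ) (X : ℕ) (A C : Finset ℕ) (σ : Fin r → Fin s → Option Data) : Prop :=
  ∀ i j, ∀ q ∈ σ i j, Admissible lam X A C q

/-- the sum, over all ways to complete the rows `a` and the columns `c` by `k` further rows and `l` further columns, of the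
product of the factors of the new cells; the data are prescribed by `σ` (old rows, new columns), `τ` (new rows, old columns),
`υ` (new rows, new columns) -/
noncomputable def correlation {r s k l : ℕ} (X : ℕ) (σ : Fin r → Fin l → Option Data) (τ : Fin k → Fin s → Option Data)
    (υ : Fin k → Fin l → Option Data) (A C : Finset ℕ) (a : Fin r → ℕ) (c : Fin s → ℕ) : ℝ :=
  ∑ a' ∈ Fintype.piFinset (fun _ : Fin k => A), ∑ c' ∈ Fintype.piFinset (fun _ : Fin l => C),
    (∏ i, ∏ j, factor X (σ i j) (a i) (c' j)) * (∏ i, ∏ j, factor X (τ i j) (a' i) (c j)) * ∏ i, ∏ j, factor X (υ i j) (a' i) (c' j)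

open Classical in
/-- the number of the choices of `r` rows and `s` columns for which the correlation differs from `|A| ^ k |C| ^ l` by more than
`δ |A| ^ k |C| ^ l` -/
noncomputable def exceptions {r s k l : ℕ} (X : ℕ) (δ : ℝ) (σ : Fin r → Fin l → Option Data) (τ : Fin k → Fin s → Option Data)
    (υ : Fin k → Fin l → Option Data) (A C : Finset ℕ) : ℕ :=
  ((Fintype.piFinset (fun _ : Fin r => A) ×ˢ Fintype.piFinset (fun _ : Fin s => C)).filter (fun z =>
    δ * ((A.card : ℝ) ^ k * (C.card : ℝ) ^ l) < |correlation X σ τ υ A C z.1 z.2 - (A.card : ℝ) ^ k * (C.card : ℝ) ^ l|)).card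

/-- the number of primes in `(n² + s, n² + s + (log₂ n)²]` divided by `log X / (2 (log 2)²)`, if the cell is used (`b` is true), and
`1` if it is not used -/
noncomputable def logFactor (X : ℕ) (b : Bool) (n s : ℕ) : ℝ :=
  if b then (count (n ^ 2 + s) ⌊Real.logb 2 n ^ 2⌋₊ : ℝ) / (Real.log X / (2 * Real.log 2 ^ 2)) else 1

/-- **Main theorem.** (1) For all but `δ |A| ^ r |C| ^ s` choices of `r` rows and `s` columns the mean value of the product of the
densities over any set of new cells is `1 + O(δ)`. (2) The case without old rows and columns: the mean value of the product of the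
densities of the windows in an arbitrary set of cells of a `k × l` table is `1 + O(δ)`. (3) The same for the windows
`(n_i² + s_j, n_i² + s_j + (log₂ n_i)²]` with `n_i` in an arbitrary dense set of integers in `[1, X]` and `s_j` in an arbitrary
dense set of integers in `[0, X²]`. -/
theorem result (r s k l : ℕ) (lam d δ : ℝ) (hlam : 0 < lam) (hd : 0 < d) (hδ : 0 < δ) :
    ∃ X₀ : ℕ, ∀ X : ℕ, X₀ ≤ X → ∀ A C : Finset ℕ, d * (X : ℝ) ≤ A.card → d * (X : ℝ) ^ 2 ≤ C.card →
      (∀ (σ : Fin r → Fin l → Option Data) (τ : Fin k → Fin s → Option Data) (υ : Fin k → Fin l → Option Data),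
        AllAdmissible lam X A C σ → AllAdmissible lam X A C τ → AllAdmissible lam X A C υ →
        (exceptions X δ σ τ υ A C : ℝ) ≤ δ * ((A.card : ℝ) ^ r * (C.card : ℝ) ^ s)) ∧
      (∀ υ : Fin k → Fin l → Option Data, AllAdmissible lam X A C υ →
        |∑ a ∈ Fintype.piFinset (fun _ : Fin k => A), ∑ c ∈ Fintype.piFinset (fun _ : Fin l => C),
          ∏ i, ∏ j, factor X (υ i j) (a i) (c j) - (A.card : ℝ) ^ k * (C.card : ℝ) ^ l| ≤
          δ * ((A.card : ℝ) ^ k * (C.card : ℝ) ^ l)) ∧
      ((∀ n ∈ A, 1 ≤ n ∧ n ≤ X) → (∀ s ∈ C, s ≤ X ^ 2) → ∀ υ : Fin k → Fin l → Bool,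
        |∑ a ∈ Fintype.piFinset (fun _ : Fin k => A), ∑ c ∈ Fintype.piFinset (fun _ : Fin l => C),
          ∏ i, ∏ j, logFactor X (υ i j) (a i) (c j) - (A.card : ℝ) ^ k * (C.card : ℝ) ^ l| ≤
          δ * ((A.card : ℝ) ^ k * (C.card : ℝ) ^ l)) := by
  classical
  -- translation of the data
  obtain ⟨T, hT⟩ : ∃ T : Option Data → Option V11316.AT.Lb, T = fun o => o.map (fun q => (q.f, q.g, q.H)) := ⟨_, rfl⟩
  have hfac : ∀ (X : ℕ) (o : Option Data) (a c : ℕ), factor X o a c = V11316.AT.wS X (T o) a c := by
    intro X o a c
    rw [hT]
    rcases o with _ | q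
    · rfl
    · simp only [factor, density, Option.map_some, V11316.AT.wS, V11316.AT.SW, V11316.AT.AW, V11316.AT.log_X2]
      rfl
  have hlab : ∀ {r s X : ℕ} {A C : Finset ℕ} {σ : Fin r → Fin s → Option Data}, AllAdmissible lam X A C σ →
      ∀ i j, ∀ q ∈ T (σ i j), V11316.AT.LabS lam X A C q := by
    intro r s X A C σ h i j q hq
    rw [hT] at hq
    rcases hσ : σ i j with _ | q'
    · rw [hσ] at hq
      simp at hq
    · rw [hσ] at hq
      simp only [Option.map_some, Option.mem_def, Option.some.injEq] at hq
      subst hq
      obtain ⟨⟨h1, h2⟩, ⟨h3, h4⟩, h5, h6⟩ := h i j q' hσ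
      exact ⟨h1, h3, h2, h4, h5, h6⟩
  obtain ⟨X₀, hX₀⟩ := Filter.eventually_atTop.1 (((V11316.AT.squares_asym r s k l lam d δ hlam hd hδ).and
    (V11316.AT.squares_asym0 k l lam d δ hlam hd hδ)).and (V11316.AT.corr_len k l d δ hd hδ))
  refine ⟨X₀, fun X hX A C hA hC => ⟨fun σ τ υ hσ hτ hυ => ?_, fun υ hυ => ?_, fun hA' hC' υ => ?_⟩⟩
  · have g := (hX₀ X hX).1.1 A C hA hC (fun i j => T (σ i j)) (fun i j => T (τ i j)) (fun i j => T (υ i j))
      (hlab hσ) (hlab hτ) (hlab hυ)
    unfold exceptions correlation
    simp_rw [hfac]
    exact g
  · have g := (hX₀ X hX).1.2 A C hA hC (fun i j => T (υ i j)) (hlab hυ)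
    simp_rw [hfac]
    exact g
  · exact (hX₀ X hX).2 A hA' hA C hC' hC υ

end Pool.Agent.Results.MP_73869e_nt.CorrelationsAboveSquares
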