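import Pool.Agent.V11316.AT17

/-!
# Primes just above translated squares, for arbitrary dense sets of squares and almost all translates

The problem asks for primes in the intervals `(n², n² + (log₂ n)²]`. We consider the intervals above the translated squares
`n² + s`, `0 ≤ s ≤ X²`, and average over `n` in an ARBITRARY set `B` of at least `δ X` integers in `[1, X]` (and not over all
`n`). We show: for almost all `s` the mean value over `n ∈ B` of the number of primes in `(n² + s, n² + s + y]` is the expected
one, `y / (2 log X)`, up to a relative error `ε`; this holds for the length `y = (log₂ n)²` of the problem and for all lengths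
down to an arbitrarily small constant multiple of `log X`, that is, of the mean distance of the primes. The mean values over `n`
in `B` and over `s` in an arbitrary set `A` of at least `δ X²` integers are the expected ones, too.

Method: the circle method, with fourth moments. The exponential sum over the primes, times the difference of the kernels of a
short window and of a long window, is `O(ε X²)` at all frequencies, with `ε` a small constant times `(log X)^(-1/2)` (Vinogradov's
bound on the minor arcs, the Siegel-Walfisz theorem and Ramanujan sums on the major arcs); its mean square is bounded by a sieve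
upper bound for the second moment of the windows; and the fourth moment of the exponential sum over the squares of the elements
of `B` is at most the number of the solutions of `a² + b² = c² + d²`, which is `O(X² log X)`.
-/

set_option autoImplicit false

namespace Pool.Agent.Results.MP_73869e_nt.TranslatedSquares

open Finset

/-- the number of primes in `(m, m + y]` -/
def count (m y : ℕ) : ℕ := ((Ioc m (m + y)).filter Nat.Prime).card

/-- the mean value over `n ∈ B` of the number of primes in `(n² + s, n² + s + y]` -/
noncomputable def mean (B : Finset ℕ) (s y : ℕ) : ℝ := (∑ n ∈ B, (count (n ^ 2 + s) y : ℝ)) / B.card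

/-- the mean value over `n ∈ B` of the number of primes in `(n² + s, n² + s + (log₂ n)²]` (for `s = 0`: of the function `a(n)`
of the problem) -/
noncomputable def meanLog (B : Finset ℕ) (s : ℕ) : ℝ :=
  (∑ n ∈ B, (count (n ^ 2 + s) ⌊Real.logb 2 n ^ 2⌋₊ : ℝ)) / B.card

open Classical in
/-- **Main theorem.** For all `λ, δ, ε > 0` and all large `X`, for every set `B` of at least `δ X` integers in `[1, X]`:
(1) for every set `A` of at least `δ X²` integers in `[0, X²]` and every integer `y` with `λ log X ≤ y ≤ X²`, the mean value over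
`s ∈ A` and `n ∈ B` of the number of primes in `(n² + s, n² + s + y]` is `y / (2 log X)`, up to a relative error `ε`;
(2) for every integer `y` with `λ log X ≤ y ≤ X²` the mean value over `n ∈ B` alone is `y / (2 log X)`, up to a relative error
`ε`, for all integers `s` in `[0, X²]` but at most `δ X²`;
(3) the mean value over `n ∈ B` of the number of primes in `(n² + s, n² + s + (log₂ n)²]` is `log X / (2 (log 2)²)`, up to a
relative error `ε`, for all integers `s` in `[0, X²]` but at most `δ X²`. -/
theorem result (lam δ ε : ℝ) (hlam : 0 < lam) (hδ : 0 < δ) (hε : 0 < ε) : ∃ X₀ : ℕ, ∀ X : ℕ, X₀ ≤ X → ∀ B : Finset ℕ,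
    (∀ n ∈ B, 1 ≤ n ∧ n ≤ X) → δ * (X : ℝ) ≤ B.card →
    (∀ A : Finset ℕ, (∀ s ∈ A, s ≤ X ^ 2) → δ * (X : ℝ) ^ 2 ≤ A.card → ∀ y : ℕ, lam * Real.log X ≤ y → y ≤ X ^ 2 →
      |(∑ s ∈ A, mean B s y) / A.card - y / (2 * Real.log X)| ≤ ε * (y / (2 * Real.log X))) ∧
    (∀ y : ℕ, lam * Real.log X ≤ y → y ≤ X ^ 2 →
      (((range (X ^ 2 + 1)).filter (fun s => ¬ |mean B s y - y / (2 * Real.log X)| ≤ ε * (y / (2 * Real.log X)))).card : ℝ) ≤
        δ * (X : ℝ) ^ 2) ∧
    (((range (X ^ 2 + 1)).filter (fun s => ¬ |meanLog B s - Real.log X / (2 * Real.log 2 ^ 2)| ≤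
      ε * (Real.log X / (2 * Real.log 2 ^ 2)))).card : ℝ) ≤ δ * (X : ℝ) ^ 2 := by
  obtain ⟨η, hη⟩ : ∃ η, η = min ε 1 := ⟨_, rfl⟩
  have hη0 : 0 < η := by rw [hη]; exact lt_min hε one_pos
  have hη1 : η ≤ 1 := by rw [hη]; exact min_le_right _ _
  have hηε : η ≤ ε := by rw [hη]; exact min_le_left _ _
  have hlog2 : 0 < Real.log 2 := Real.log_pos (by norm_num)
  have hlogt : Filter.Tendsto (fun X : ℕ => Real.log (X : ℝ)) Filter.atTop Filter.atTop :=
    Real.tendsto_log_atTop.comp tendsto_natCast_atTop_atTop
  obtain ⟨X₀, hX₀⟩ := Filter.eventually_atTop.1 ((((V11316.AT.trans_sq lam δ η hlam hδ hη0 hη1).and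
    (V11316.AT.exc_sq lam δ η hlam hδ hη0 hη1)).and (V11316.AT.len_sq δ η hδ hη0 hη1)).and
    ((hlogt.eventually_gt_atTop 0).and (Filter.eventually_ge_atTop 1)))
  refine ⟨X₀, fun X hX B hB hBc => ?_⟩
  obtain ⟨⟨⟨h1, h2⟩, h3⟩, h4, h5⟩ := hX₀ X hX
  have hXr : (0 : ℝ) < X := by exact_mod_cast h5
  have hB0 : (0 : ℝ) < B.card := lt_of_lt_of_le (by positivity) hBc
  have hmean : ∀ s y : ℕ, mean B s y = V11316.AT.sq B s y / B.card := fun s y => rfl
  have hmeanLog : ∀ s : ℕ, meanLog B s = V11316.AT.sql B s / B.card := fun s => rfl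
  refine ⟨fun A hA hAc y hy1 hy2 => ?_, fun y hy1 hy2 => ?_, ?_⟩
  · have hA0 : (0 : ℝ) < A.card := lt_of_lt_of_le (by positivity) hAc
    have h6 := h1 B hB hBc A hA hAc y hy1 hy2
    have e1 : (∑ s ∈ A, mean B s y) / A.card - y / (2 * Real.log X) =
        ((∑ s ∈ A, V11316.AT.sq B s y) * (2 * Real.log X) - (A.card : ℝ) * B.card * y) / (A.card * B.card * (2 * Real.log X)) := by
      simp_rw [hmean]
      rw [← sum_div]
      field_simp
    have hD : 0 < (A.card : ℝ) * B.card * (2 * Real.log X) := by positivity
    rw [e1, abs_div, abs_of_pos hD, div_le_iff₀ hD]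
    refine h6.trans ?_
    have h7 : 0 ≤ (A.card : ℝ) * B.card * y := by positivity
    refine (mul_le_mul_of_nonneg_right hηε h7).trans (le_of_eq ?_)
    field_simp
  · refine le_trans (Nat.cast_le.2 (card_le_card ?_)) (h2 B hB hBc y hy1 hy2)
    intro s hs
    rw [mem_filter] at hs
    unfold V11316.AT.Exs
    rw [mem_filter]
    refine ⟨hs.1, ?_⟩
    by_contra hcon
    rw [not_lt] at hcon
    apply hs.2
    have e1 : mean B s y - y / (2 * Real.log X) =
        (V11316.AT.sq B s y * (2 * Real.log X) - B.card * y) / (B.card * (2 * Real.log X)) := by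
      rw [hmean]
      field_simp
    have hD : 0 < (B.card : ℝ) * (2 * Real.log X) := by positivity
    rw [e1, abs_div, abs_of_pos hD, div_le_iff₀ hD]
    refine hcon.trans ?_
    have h7 : 0 ≤ (B.card : ℝ) * y := by positivity
    refine (mul_le_mul_of_nonneg_right hηε h7).trans (le_of_eq ?_)
    field_simp
  · refine le_trans (Nat.cast_le.2 (card_le_card ?_)) (h3 B hB hBc)
    intro s hs
    rw [mem_filter] at hs ⊢
    refine ⟨hs.1, fun hcon => ?_⟩
    apply hs.2
    have e1 : meanLog B s - Real.log X / (2 * Real.log 2 ^ 2) =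
        (V11316.AT.sql B s * (2 * Real.log X) - B.card * Real.logb 2 X ^ 2) / (B.card * (2 * Real.log X)) := by
      rw [hmeanLog, Real.logb]
      field_simp
    have hD : 0 < (B.card : ℝ) * (2 * Real.log X) := by positivity
    rw [e1, abs_div, abs_of_pos hD, div_le_iff₀ hD]
    refine hcon.trans ?_
    have h7 : 0 ≤ (B.card : ℝ) * Real.logb 2 X ^ 2 := by positivity
    refine (mul_le_mul_of_nonneg_right hηε h7).trans (le_of_eq ?_)
    rw [Real.logb]
    field_simp

end Pool.Agent.Results.MP_73869e_nt.TranslatedSquares
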