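import Pool.Agent.V11316.AT19

/-!
# Patterns of windows with many and with few primes above translated squares

Consider a table with rows `a_1, a_2, …` in a finite set `A` of size at least `d X` and columns `c_1, c_2, …` in a finite set `C`
of size at least `d X²`. Each cell `(i, j)` of the table has its own labels `f_ij : A → [1, X]` and `g_ij : C → [0, X²]`, ARBITRARY
injective maps, and its own length `H_ij`, an integer with `λ log X ≤ H_ij ≤ X²`. The entry of the cell is the translated square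
`x_ij = f_ij(a_i)² + g_ij(c_j)` and its window is `(x_ij, x_ij + H_ij]`. For example, if `A` is a dense set of integers in `[1, X]`
and `C` is a dense set of integers in `[0, X²]` then the entry can be `a_i² + c_j` in all cells.

We show that every pattern occurs: for almost all choices of `r` rows and `s` columns there is a positive proportion of choices
of `k` further rows and `l` further columns such that in the new cells, simultaneously, the number of primes in the window is more
than `1 - δ` times, respectively less than `1 + δ` times, the expected number, as prescribed by an arbitrary pattern. For windows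
of length at most `μ log X²` with `μ < 1` this means: one can prescribe arbitrarily which of the windows of the new cells contain a
prime. The third part is about the windows `(n² + s, n² + s + (log₂ n)²]` of the problem, translated by `s`: for arbitrary dense
sets of integers `n` in `[1, X]` and `s` in `[0, X²]`, a positive proportion of all tables `(n_i, s_j)` has, in all cells, at least
`1 - δ` times (in prescribed cells: at most `1 + δ` times) the expected number of primes. The problem asks for `s = 0`, and every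
`n`.

Nothing is said about the `r s` old cells (their contents are determined by the choice of the rows and columns).
-/

set_option autoImplicit false

namespace Pool.Agent.Results.MP_73869e_nt.WindowPatternsAboveSquares

open Finset

/-- the number of primes in `(x, x + H]` -/
def count (x H : ℕ) : ℕ := ((Ioc x (x + H)).filter Nat.Prime).card

/-- the number of primes in `(x, x + H]`, divided by `H / log X²` -/
noncomputable def density (X H x : ℕ) : ℝ := (count x H : ℝ) * (2 * Real.log X) / H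

/-- the data of a cell: the labels `f` of the rows and `g` of the columns, the length `H` of the window and the prescription `b` -/
structure Data where
  /-- the prescription -/
  b : Bool
  /-- the labels of the rows -/
  f : ℕ → ℕ
  /-- the labels of the columns -/
  g : ℕ → ℕ
  /-- the length of the window -/
  H : ℕ

/-- the window `(x, x + H]`, `x = (f a)² + g c`, contains many primes (if `b` is true), not many primes (if `b` is false) -/
def Cell (X : ℕ) (δ : ℝ) (q : Data) (a c : ℕ) : Prop :=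
  if q.b then 1 - δ < density X q.H (q.f a ^ 2 + q.g c) else density X q.H (q.f a ^ 2 + q.g c) < 1 + δ

/-- the window `(x, x + H]`, `x = (f a)² + g c`, contains a prime if `b` is true, and contains no prime if `b` is false -/
def Exact (q : Data) (a c : ℕ) : Prop :=
  (∃ p : ℕ, p.Prime ∧ q.f a ^ 2 + q.g c < p ∧ p ≤ q.f a ^ 2 + q.g c + q.H) ↔ q.b = true

/-- the labels are injective on `A` and on `C`, those of the rows are between `1` and `X`, those of the columns are at most `X²`,
and the length is between `H₁` and `H₂` -/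
def Admissible (H₁ H₂ : ℝ) (X : ℕ) (A C : Finset ℕ) (q : Data) : Prop :=
  (Set.InjOn q.f A ∧ ∀ a ∈ A, 1 ≤ q.f a ∧ q.f a ≤ X) ∧ (Set.InjOn q.g C ∧ ∀ c ∈ C, q.g c ≤ X ^ 2) ∧ H₁ ≤ q.H ∧ q.H ≤ H₂

/-- the data of all cells are admissible -/
def AllAdmissible {r s : ℕ} (H₁ H₂ : ℝ) (X : ℕ) (A C : Finset ℕ) (σ : Fin r → Fin s → Data) : Prop :=
  ∀ i j, Admissible H₁ H₂ X A C (σ i j)

open Classical in
/-- the ways to complete the rows `a` and the columns `c` by `k` further rows and `l` further columns, such that the property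
`P q` holds for all the new cells, where `q` is the value of the patterns `σ` (old rows, new columns), `τ` (new rows, old
columns), `υ` (new rows, new columns) -/
noncomputable def completions {r s k l : ℕ} (P : Data → ℕ → ℕ → Prop) (σ : Fin r → Fin l → Data)
    (τ : Fin k → Fin s → Data) (υ : Fin k → Fin l → Data) (A C : Finset ℕ) (a : Fin r → ℕ)
    (c : Fin s → ℕ) : Finset ((Fin k → ℕ) × (Fin l → ℕ)) :=
  (Fintype.piFinset (fun _ : Fin k => A) ×ˢ Fintype.piFinset (fun _ : Fin l => C)).filter (fun w =>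
    (∀ i j, P (σ i j) (a i) (w.2 j)) ∧ (∀ i j, P (τ i j) (w.1 i) (c j)) ∧ ∀ i j, P (υ i j) (w.1 i) (w.2 j))

open Classical in
/-- the number of the choices of `r` rows and `s` columns which have less than `κ |A| ^ k |C| ^ l` completions -/
noncomputable def exceptions {r s k l : ℕ} (P : Data → ℕ → ℕ → Prop) (σ : Fin r → Fin l → Data)
    (τ : Fin k → Fin s → Data) (υ : Fin k → Fin l → Data) (A C : Finset ℕ) (κ : ℝ) : ℕ :=
  ((Fintype.piFinset (fun _ : Fin r => A) ×ˢ Fintype.piFinset (fun _ : Fin s => C)).filter (fun z =>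
    ((completions P σ τ υ A C z.1 z.2).card : ℝ) < κ * ((A.card : ℝ) ^ k * (C.card : ℝ) ^ l))).card

/-- the number of primes in `(n² + s, n² + s + (log₂ n)²]` is more than `1 - δ` times `log X / (2 (log 2)²)` if `b` is true, and
less than `1 + δ` times this if `b` is false -/
def LogCell (X : ℕ) (δ : ℝ) (b : Bool) (n s : ℕ) : Prop :=
  if b then (1 - δ) * (Real.log X / (2 * Real.log 2 ^ 2)) < (count (n ^ 2 + s) ⌊Real.logb 2 n ^ 2⌋₊ : ℝ)
  else (count (n ^ 2 + s) ⌊Real.logb 2 n ^ 2⌋₊ : ℝ) < (1 + δ) * (Real.log X / (2 * Real.log 2 ^ 2))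

open Classical in
/-- **Main theorem.** (1) All patterns of windows with at least `1 - δ` times and windows with at most `1 + δ` times the expected
number of primes, for arbitrary lengths between `λ log X` and `X²`. (2) All patterns of windows which contain a prime and windows
which do not, for arbitrary lengths between `λ log X` and `μ log X²`, `μ < 1`. (3) All patterns for the windows
`(n_i² + s_j, n_i² + s_j + (log₂ n_i)²]` with `n_i` in an arbitrary dense set of integers in `[1, X]` and `s_j` in an arbitrary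
dense set of integers in `[0, X²]`. In all cases `κ` does not depend on `X`, the sets, the labels, the lengths and the patterns. -/
theorem result (r s k l : ℕ) (lam d δ μ : ℝ) (hlam : 0 < lam) (hd : 0 < d) (hδ : 0 < δ) (hμ0 : 0 < μ) (hμ : μ < 1) :
    (∃ κ : ℝ, 0 < κ ∧ ∃ X₀ : ℕ, ∀ X : ℕ, X₀ ≤ X → ∀ A C : Finset ℕ, d * (X : ℝ) ≤ A.card → d * (X : ℝ) ^ 2 ≤ C.card →
      ∀ (σ : Fin r → Fin l → Data) (τ : Fin k → Fin s → Data) (υ : Fin k → Fin l → Data),
        AllAdmissible (lam * Real.log X) ((X : ℝ) ^ 2) X A C σ → AllAdmissible (lam * Real.log X) ((X : ℝ) ^ 2) X A C τ →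
        AllAdmissible (lam * Real.log X) ((X : ℝ) ^ 2) X A C υ →
        (exceptions (Cell X δ) σ τ υ A C κ : ℝ) ≤ δ * ((A.card : ℝ) ^ r * (C.card : ℝ) ^ s)) ∧
    (∃ κ : ℝ, 0 < κ ∧ ∃ X₀ : ℕ, ∀ X : ℕ, X₀ ≤ X → ∀ A C : Finset ℕ, d * (X : ℝ) ≤ A.card → d * (X : ℝ) ^ 2 ≤ C.card →
      ∀ (σ : Fin r → Fin l → Data) (τ : Fin k → Fin s → Data) (υ : Fin k → Fin l → Data),
        AllAdmissible (lam * Real.log X) (μ * (2 * Real.log X)) X A C σ →
        AllAdmissible (lam * Real.log X) (μ * (2 * Real.log X)) X A C τ →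
        AllAdmissible (lam * Real.log X) (μ * (2 * Real.log X)) X A C υ →
        (exceptions Exact σ τ υ A C κ : ℝ) ≤ δ * ((A.card : ℝ) ^ r * (C.card : ℝ) ^ s)) ∧
    (∃ κ : ℝ, 0 < κ ∧ ∃ X₀ : ℕ, ∀ X : ℕ, X₀ ≤ X → ∀ B : Finset ℕ, (∀ n ∈ B, 1 ≤ n ∧ n ≤ X) → d * (X : ℝ) ≤ B.card →
      ∀ C : Finset ℕ, (∀ s ∈ C, s ≤ X ^ 2) → d * (X : ℝ) ^ 2 ≤ C.card → ∀ υ : Fin k → Fin l → Bool,
      κ * ((B.card : ℝ) ^ k * (C.card : ℝ) ^ l) ≤
        (((Fintype.piFinset (fun _ : Fin k => B) ×ˢ Fintype.piFinset (fun _ : Fin l => C)).filter (fun w =>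
          ∀ i j, LogCell X δ (υ i j) (w.1 i) (w.2 j))).card : ℝ)) := by
  -- translation of the data
  obtain ⟨T, hT⟩ : ∃ T : Data → Bool × V11316.AT.Lb, T = fun q => (q.b, q.f, q.g, q.H) := ⟨_, rfl⟩
  have hcell : ∀ (X : ℕ) (δ : ℝ) (q : Data) (a c : ℕ), Cell X δ q a c ↔ V11316.TB.Gd δ (T q).1 (V11316.AT.SW X (T q).2 a c) := by
    intro X δ q a c
    rw [hT]
    unfold Cell density V11316.AT.SW V11316.AT.AW
    rw [V11316.AT.log_X2]
    rfl
  have hlog : Filter.Tendsto (fun X : ℕ => Real.log (X : ℝ)) Filter.atTop Filter.atTop :=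
    Real.tendsto_log_atTop.comp tendsto_natCast_atTop_atTop
  have hexc : ∀ (X : ℕ) (P : Data → ℕ → ℕ → Prop) (δ' H₁ H₂ : ℝ) (σ : Fin r → Fin l → Data) (τ : Fin k → Fin s → Data)
      (υ : Fin k → Fin l → Data) (A C : Finset ℕ) (κ T' : ℝ),
      AllAdmissible H₁ H₂ X A C σ → AllAdmissible H₁ H₂ X A C τ → AllAdmissible H₁ H₂ X A C υ →
      (∀ a c, ∀ q : Data, H₁ ≤ q.H → q.H ≤ H₂ → V11316.TB.Gd δ' (T q).1 (V11316.AT.SW X (T q).2 a c) → P q a c) →
      (((Fintype.piFinset (fun _ : Fin r => A) ×ˢ Fintype.piFinset (fun _ : Fin s => C)).filter (fun z => ¬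
        (κ * ((A.card : ℝ) ^ k * (C.card : ℝ) ^ l) ≤
          ((V11316.TB.Comp δ' (fun i j => T (σ i j)) (fun i j => T (τ i j)) (fun i j => T (υ i j)) A C
            (V11316.AT.SW X) z.1 z.2).card : ℝ)))).card : ℝ) ≤ T' →
      (exceptions P σ τ υ A C κ : ℝ) ≤ T' := by
    intro X P δ' H₁ H₂ σ τ υ A C κ T' hσ hτ hυ hP hT'
    refine le_trans (Nat.cast_le.2 ?_) hT'
    unfold exceptions
    apply card_le_card
    intro z hz
    rw [mem_filter] at hz ⊢
    refine ⟨hz.1, fun hcon => ?_⟩
    have hsub : V11316.TB.Comp δ' (fun i j => T (σ i j)) (fun i j => T (τ i j)) (fun i j => T (υ i j)) A C (V11316.AT.SW X) z.1 z.2 ⊆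
        completions P σ τ υ A C z.1 z.2 := by
      intro w hw
      unfold V11316.TB.Comp at hw
      unfold completions
      rw [mem_filter] at hw ⊢
      exact ⟨hw.1, fun i j => hP _ _ _ (hσ i j).2.2.1 (hσ i j).2.2.2 (hw.2.1 i j),
        fun i j => hP _ _ _ (hτ i j).2.2.1 (hτ i j).2.2.2 (hw.2.2.1 i j),
        fun i j => hP _ _ _ (hυ i j).2.2.1 (hυ i j).2.2.2 (hw.2.2.2 i j)⟩
    have h1 : ((V11316.TB.Comp δ' (fun i j => T (σ i j)) (fun i j => T (τ i j)) (fun i j => T (υ i j)) A C
        (V11316.AT.SW X) z.1 z.2).card : ℝ) ≤ ((completions P σ τ υ A C z.1 z.2).card : ℝ) := Nat.cast_le.2 (card_le_card hsub)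
    linarith only [hz.2, hcon, h1]
  have hlab : ∀ {r s X : ℕ} {A C : Finset ℕ} {σ : Fin r → Fin s → Data},
      AllAdmissible (lam * Real.log X) ((X : ℝ) ^ 2) X A C σ → ∀ i j, V11316.AT.LabS lam X A C (T (σ i j)).2 := by
    intro r s X A C σ h i j
    rw [hT]
    obtain ⟨⟨h1, h2⟩, ⟨h3, h4⟩, h5, h6⟩ := h i j
    exact ⟨h1, h3, h2, h4, h5, by exact_mod_cast h6⟩
  refine ⟨?_, ?_, ?_⟩
  · obtain ⟨κ, hκ, h⟩ := V11316.AT.squares_table r s k l lam d (min 1 δ) δ hlam hd (lt_min one_pos hδ) (min_le_left _ _) hδ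
    obtain ⟨X₀, hX₀⟩ := Filter.eventually_atTop.1 h
    refine ⟨κ, hκ, X₀, fun X hX A C hA hC σ τ υ hσ hτ hυ => ?_⟩
    refine hexc X (Cell X δ) (min 1 δ) (lam * Real.log X) ((X : ℝ) ^ 2) σ τ υ A C κ _ hσ hτ hυ (fun a c q _ _ hb => ?_)
      (hX₀ X hX A C hA hC _ _ _ (hlab hσ) (hlab hτ) (hlab hυ))
    rw [hcell]
    have h1 := min_le_right 1 δ
    unfold V11316.TB.Gd at hb ⊢
    split_ifs at hb ⊢ <;> linarith only [h1, hb]
  · have hd0 : 0 < min 1 (1 / μ - 1) := by
      apply lt_min one_pos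
      have : 1 < 1 / μ := by rw [lt_div_iff₀ hμ0]; linarith only [hμ]
      linarith only [this]
    obtain ⟨κ, hκ, h⟩ := V11316.AT.squares_table r s k l lam d (min 1 (1 / μ - 1)) δ hlam hd hd0 (min_le_left _ _) hδ
    obtain ⟨X₀, hX₀⟩ := Filter.eventually_atTop.1 ((h.and (hlog.eventually_gt_atTop 0)).and (Filter.eventually_ge_atTop 1))
    refine ⟨κ, hκ, X₀, fun X hX A C hA hC σ τ υ hσ hτ hυ => ?_⟩
    obtain ⟨⟨h1, h2⟩, hX1⟩ := hX₀ X hX
    have hXr : (1 : ℝ) ≤ X := by exact_mod_cast hX1
    have hle : μ * (2 * Real.log X) ≤ (X : ℝ) ^ 2 := by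
      have h3 : Real.log (X : ℝ) ≤ X - 1 := Real.log_le_sub_one_of_pos (by linarith only [hXr])
      have h4 : μ * (2 * Real.log X) ≤ 1 * (2 * Real.log X) := mul_le_mul_of_nonneg_right hμ.le (by positivity)
      nlinarith only [h3, h4, hXr]
    have hadm2 : ∀ {r s : ℕ} {σ : Fin r → Fin s → Data}, AllAdmissible (lam * Real.log X) (μ * (2 * Real.log X)) X A C σ →
        AllAdmissible (lam * Real.log X) ((X : ℝ) ^ 2) X A C σ :=
      fun h i j => ⟨(h i j).1, (h i j).2.1, (h i j).2.2.1, (h i j).2.2.2.trans hle⟩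
    refine hexc X Exact (min 1 (1 / μ - 1)) (lam * Real.log X) (μ * (2 * Real.log X)) σ τ υ A C κ _ hσ hτ hυ
      (fun a c q hq1 hq2 hb => ?_) (h1 A C hA hC _ _ _ (hlab (hadm2 hσ)) (hlab (hadm2 hτ)) (hlab (hadm2 hυ)))
    have hq0 : 0 < q.H := by
      have : (0 : ℝ) < q.H := lt_of_lt_of_le (mul_pos hlam h2) hq1
      exact_mod_cast this
    rw [hT] at hb
    exact V11316.AT.short_sum hμ0 hμ (by rw [V11316.AT.log_X2]; positivity) hq0 (by rw [V11316.AT.log_X2]; exact hq2) q.b hb
  · obtain ⟨κ, hκ, h⟩ := V11316.AT.pat_len k l d δ hd hδ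
    obtain ⟨X₀, hX₀⟩ := Filter.eventually_atTop.1 h
    exact ⟨κ, hκ, X₀, fun X hX B hB hBc C hC hCc υ => hX₀ X hX B hB hBc C hC hCc υ⟩

end Pool.Agent.Results.MP_73869e_nt.WindowPatternsAboveSquares
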